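import Mathlib

/-!
# Positivity of the convolution sums of generalized Bernoulli polynomials

Idea of the proof. `q(x) = B_n^{(n)}(x)` is, up to the factor `1/(n+1)`, the difference
`A(x+1) - A(x)` of `A = B_{n+1}^{(n+1)}`, whose derivative is
`(n+1) B_n^{(n+1)}(x) = (n+1) (x-1)⋯(x-n)`. By the mean value theorem `q(j)` has the sign
`(-1)^(n-j)` for `j = 0, …, n`. Hence `q` has `n` real zeros `z_j`, and `α_{n,k}(x)`, `β_{n,k}(x)` are
coefficients of `∏ ((x - z_j)^2 + W)`.
-/

set_option autoImplicit false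
namespace Pool.Agent.Results.MP_6eafb7_an.ConvolutionPositivity
open Finset

/-- The power series `t/(e^t-1)`: the inverse of `(e^t-1)/t = ∑ t^k/(k+1)!`. -/
noncomputable def T : PowerSeries ℝ :=
  (PowerSeries.mk fun k => ((k + 1).factorial : ℝ)⁻¹)⁻¹

/-- The generalized Bernoulli polynomial `B_m^{(n)}` of order `n` (a natural number) at the real
point `x`: `m!` times the coefficient of `t^m` in `(t/(e^t-1))^n e^{xt}`. -/
noncomputable def bern (n m : ℕ) (x : ℝ) : ℝ :=
  (m.factorial : ℝ) * PowerSeries.coeff m (T ^ n * PowerSeries.rescale x (PowerSeries.exp ℝ))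

/-- `α_{n,k}(x)`. -/
noncomputable def alpha (n k : ℕ) (x : ℝ) : ℝ :=
  (-1) ^ k * ∑ j ∈ range (2 * k + 1), (-1) ^ j * (n.choose j : ℝ) * (n.choose (2 * k - j) : ℝ) *
    bern n (n - j) x * bern n (n - 2 * k + j) x

/-- `β_{n,k}(x)`. -/
noncomputable def beta (n k : ℕ) (x : ℝ) : ℝ :=
  (-1) ^ k * ∑ j ∈ range (2 * k + 1), (-1) ^ j * (n.choose j : ℝ) * (n.choose (2 * k - j) : ℝ) *
    bern n j x * bern n (2 * k - j) x

/-- `(e^t-1)/t`. -/
noncomputable def E : PowerSeries ℝ := PowerSeries.mk fun k => ((k + 1).factorial : ℝ)⁻¹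

lemma X_mul_E : PowerSeries.X * E = PowerSeries.exp ℝ - 1 := by
  ext n
  cases n with
  | zero => simp
  | succ n =>
    rw [PowerSeries.coeff_succ_X_mul]
    simp [E, PowerSeries.coeff_exp, PowerSeries.coeff_one]

lemma T_mul_E : T * E = 1 := by
  unfold T E
  apply PowerSeries.inv_mul_cancel
  simp [← PowerSeries.coeff_zero_eq_constantCoeff_apply]

/-- Sanity check: `T = t/(e^t-1)`. -/
lemma T_spec : T * (PowerSeries.exp ℝ - 1) = PowerSeries.X := by
  rw [← X_mul_E]
  linear_combination PowerSeries.X * T_mul_E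

lemma d_exp (x : ℝ) : PowerSeries.derivative ℝ (PowerSeries.rescale x (PowerSeries.exp ℝ)) =
    PowerSeries.C x * PowerSeries.rescale x (PowerSeries.exp ℝ) := by
  ext n
  simp [PowerSeries.coeff_derivative, PowerSeries.coeff_exp, Nat.factorial_succ]
  field_simp
  ring

lemma X_mul_dT : PowerSeries.X * PowerSeries.derivative ℝ T
    = T - PowerSeries.X * T - T ^ 2 := by
  have h1 : PowerSeries.derivative ℝ (PowerSeries.X * E) = PowerSeries.exp ℝ := by
    rw [X_mul_E]
    ext n
    simp [PowerSeries.coeff_derivative, PowerSeries.coeff_exp, 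
      Nat.factorial_succ]
    field_simp
  have h2 : E + PowerSeries.X * PowerSeries.derivative ℝ E = 1 + PowerSeries.X * E := by
    have h3 := h1
    rw [Derivation.leibniz, PowerSeries.derivative_X, smul_eq_mul, smul_eq_mul, mul_one] at h3
    rw [X_mul_E, add_comm, h3]
    ring
  have h4 : T * PowerSeries.derivative ℝ E + E * PowerSeries.derivative ℝ T = 0 := by
    have h5 : PowerSeries.derivative ℝ (T * E) = 0 := by
      rw [T_mul_E]; exact PowerSeries.derivative_one
    rwa [Derivation.leibniz, smul_eq_mul, smul_eq_mul] at h5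
  linear_combination (PowerSeries.X * T) * h4 - (T ^ 2) * h2 + (T - PowerSeries.X * PowerSeries.derivative ℝ T - PowerSeries.X * T) * T_mul_E

lemma X_mul_dG (n : ℕ) (x : ℝ) :
    PowerSeries.X * PowerSeries.derivative ℝ (T ^ n * PowerSeries.rescale x (PowerSeries.exp ℝ)) =
    (n : PowerSeries ℝ) * (T ^ n * PowerSeries.rescale x (PowerSeries.exp ℝ)
      - PowerSeries.X * (T ^ n * PowerSeries.rescale x (PowerSeries.exp ℝ))
      - T ^ (n + 1) * PowerSeries.rescale x (PowerSeries.exp ℝ)) +
    PowerSeries.C x * (PowerSeries.X * (T ^ n * PowerSeries.rescale x (PowerSeries.exp ℝ))) := by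
  rw [Derivation.leibniz, d_exp, PowerSeries.derivative_pow, smul_eq_mul, smul_eq_mul]
  cases n with
  | zero => simp; ring
  | succ n =>
    rw [Nat.add_sub_cancel]
    linear_combination (((n + 1 : ℕ) : PowerSeries ℝ) * T ^ n * PowerSeries.rescale x (PowerSeries.exp ℝ)) * X_mul_dT

lemma bern_succ (n m : ℕ) (x : ℝ) :
    (n : ℝ) * bern (n + 1) (m + 1) x =
      ((n : ℝ) - (m + 1)) * bern n (m + 1) x + (m + 1) * (x - n) * bern n m x := by
  have h := congrArg (PowerSeries.coeff (m + 1)) (X_mul_dG n x)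
  rw [PowerSeries.coeff_succ_X_mul, PowerSeries.coeff_derivative, map_add,
    PowerSeries.coeff_C_mul, PowerSeries.coeff_succ_X_mul,
    show ((n : ℕ) : PowerSeries ℝ) = PowerSeries.C (n : ℝ) by simp, PowerSeries.coeff_C_mul,
    map_sub, map_sub, PowerSeries.coeff_succ_X_mul] at h
  unfold bern
  rw [Nat.factorial_succ]
  push_cast
  linear_combination (((m : ℝ) + 1) * (m.factorial : ℝ)) * h

lemma bern_zero (n : ℕ) (x : ℝ) : bern n 0 x = 1 := by
  have hE : PowerSeries.constantCoeff E = 1 := by
    simp [E, ← PowerSeries.coeff_zero_eq_constantCoeff_apply]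
  have h : PowerSeries.constantCoeff T = 1 := by
    have := congrArg PowerSeries.constantCoeff T_mul_E
    rw [map_mul, hE, mul_one, map_one] at this
    exact this
  have h2 : PowerSeries.constantCoeff (PowerSeries.rescale x (PowerSeries.exp ℝ)) = 1 := by
    rw [← PowerSeries.coeff_zero_eq_constantCoeff_apply, PowerSeries.coeff_rescale]
    simp
  unfold bern
  rw [PowerSeries.coeff_zero_eq_constantCoeff_apply, map_mul, map_pow, h, h2]
  simp

/-- `B_n^{(n+1)}(x) = (x-1)⋯(x-n)` -/
lemma bern_prod (n : ℕ) (x : ℝ) : bern (n + 1) n x = ∏ i ∈ range n, (x - (i + 1)) := by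
  induction n with
  | zero => simp [bern_zero]
  | succ n ih =>
    have h := bern_succ (n + 1) n x
    rw [prod_range_succ, ← ih]
    push_cast at h
    have hn : (n : ℝ) + 1 ≠ 0 := by positivity
    apply mul_left_cancel₀ hn
    rw [h]
    ring

lemma bern_diff (n m : ℕ) (x : ℝ) :
    bern (n + 1) (m + 1) (x + 1) - bern (n + 1) (m + 1) x = (m + 1) * bern n m x := by
  have h : T ^ (n + 1) * PowerSeries.rescale (x + 1) (PowerSeries.exp ℝ) -
      T ^ (n + 1) * PowerSeries.rescale x (PowerSeries.exp ℝ) =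
      PowerSeries.X * (T ^ n * PowerSeries.rescale x (PowerSeries.exp ℝ)) := by
    rw [← PowerSeries.exp_mul_exp_eq_exp_add, PowerSeries.rescale_one, RingHom.id_apply]
    linear_combination (T ^ n * PowerSeries.rescale x (PowerSeries.exp ℝ)) * T_spec
  have h2 := congrArg (PowerSeries.coeff (m + 1)) h
  rw [map_sub, PowerSeries.coeff_succ_X_mul] at h2
  unfold bern
  rw [← mul_sub, h2, Nat.factorial_succ]
  push_cast
  ring

lemma bern_add (a m : ℕ) (x y : ℝ) :
    bern a m (x + y) = ∑ r ∈ range (m + 1), (m.choose r : ℝ) * y ^ r * bern a (m - r) x := by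
  unfold bern
  rw [← PowerSeries.exp_mul_exp_eq_exp_add, ← mul_assoc, mul_comm, PowerSeries.coeff_mul,
    Finset.Nat.sum_antidiagonal_eq_sum_range_succ_mk, ← Finset.sum_range_reflect, sum_mul]
  apply sum_congr rfl
  intro r hr
  rw [mem_range] at hr
  have h1 : m + 1 - 1 - r = m - r := by omega
  have h2 : m - (m - r) = r := by omega
  rw [h1, h2, PowerSeries.coeff_rescale, PowerSeries.coeff_exp, Nat.choose_eq_factorial_div_factorial (by omega),
    Nat.cast_div (Nat.factorial_mul_factorial_dvd_factorial (by omega)) (by positivity)]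
  push_cast
  simp
  field_simp

lemma hasDeriv (a m : ℕ) (x : ℝ) :
    HasDerivAt (bern a (m + 1)) ((m + 1) * bern a m x) x := by
  have h0 : bern a (m + 1) = fun y => ∑ r ∈ range (m + 1 + 1), ((m + 1).choose r : ℝ) * y ^ r * bern a (m + 1 - r) 0 := by
    funext y
    have := bern_add a (m + 1) 0 y
    rwa [zero_add] at this
  rw [h0]
  have h1 := bern_add a m 0 x
  rw [zero_add] at h1
  rw [h1]
  have h2 : HasDerivAt (fun y : ℝ => ∑ r ∈ range (m + 1 + 1), ((m + 1).choose r : ℝ) * y ^ r * bern a (m + 1 - r) 0)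
      (∑ r ∈ range (m + 1 + 1), ((m + 1).choose r : ℝ) * (r * x ^ (r - 1)) * bern a (m + 1 - r) 0) x := by
    apply HasDerivAt.fun_sum
    intro r _
    exact ((hasDerivAt_pow r x).const_mul _).mul_const _
  convert h2 using 1
  rw [sum_range_succ' _ (m + 1), mul_sum]
  simp only [Nat.cast_zero, zero_mul, mul_zero, add_zero]
  apply sum_congr rfl
  intro r hr
  have h3 : ((m + 1).choose (r + 1) : ℝ) * (r + 1) = (m + 1) * m.choose r := by
    have := Nat.add_one_mul_choose_eq m r
    exact_mod_cast this.symm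
  rw [Nat.add_sub_cancel, show m + 1 - (r + 1) = m - r by omega]
  push_cast
  linear_combination (-(x ^ r) * bern a (m - r) 0) * h3

lemma bern_cont (a m : ℕ) : Continuous (bern a m) := by
  have h0 : bern a m = fun y => ∑ r ∈ range (m + 1), (m.choose r : ℝ) * y ^ r * bern a (m - r) 0 := by
    funext y
    have := bern_add a m 0 y
    rwa [zero_add] at this
  rw [h0]
  fun_prop

lemma bern_sign (j m : ℕ) : 0 < (-1 : ℝ) ^ m * bern (j + m) (j + m) j := by
  obtain ⟨ξ, hξ, hd⟩ := exists_hasDerivAt_eq_slope (bern (j + m + 1) (j + m + 1))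
    (fun x => ((j + m : ℕ) + 1) * bern (j + m + 1) (j + m) x) (a := (j : ℝ)) (b := (j : ℝ) + 1) (by linarith)
    (bern_cont _ _).continuousOn (fun x _ => hasDeriv _ _ x)
  rw [bern_diff, add_sub_cancel_left, div_one] at hd
  have hp : (0 : ℝ) < (j + m : ℕ) + 1 := by positivity
  have hd' := mul_left_cancel₀ hp.ne' hd
  rw [← hd', bern_prod, prod_range_add, mul_left_comm]
  apply mul_pos
  · apply prod_pos
    intro i hi
    rw [mem_range] at hi
    have : (i : ℝ) + 1 ≤ j := by exact_mod_cast hi
    linarith [hξ.1]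
  · have h1 : (-1 : ℝ) ^ m = ∏ i ∈ range m, (-1 : ℝ) := by simp
    rw [h1, ← prod_mul_distrib]
    apply prod_pos
    intro i hi
    have := hξ.2
    push_cast
    have h0 : (0 : ℝ) ≤ i := by positivity
    linarith

lemma exists_zeros (n : ℕ) : ∃ z : ℕ → ℝ, ∀ j < n, z j ∈ Set.Ioo (j : ℝ) (j + 1) ∧ bern n n (z j) = 0 := by
  have h : ∀ j, ∃ z : ℝ, j < n → z ∈ Set.Ioo (j : ℝ) (j + 1) ∧ bern n n z = 0 := by
    intro j
    by_cases hj : j < n
    · obtain ⟨m, rfl⟩ : ∃ m, n = j + 1 + m := ⟨n - (j + 1), by omega⟩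
      have h1 := bern_sign (j + 1) m
      have h2 := bern_sign j (m + 1)
      rw [show j + (m + 1) = j + 1 + m by ring, pow_succ] at h2
      have hc : ContinuousOn (fun x => (-1 : ℝ) ^ m * bern (j + 1 + m) (j + 1 + m) x) (Set.Icc (j : ℝ) (j + 1)) :=
        ((bern_cont _ _).const_mul _).continuousOn
      have := intermediate_value_Ioo (by linarith) hc
      obtain ⟨z, hz, hz0⟩ := this (a := 0) ⟨by linarith, by push_cast at h1; linarith⟩
      refine ⟨z, fun _ => ⟨hz, ?_⟩⟩
      have : (-1 : ℝ) ^ m ≠ 0 := by positivity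
      simpa [this] using hz0
    · exact ⟨0, fun h => absurd h hj⟩
  choose z hz using h
  exact ⟨z, hz⟩


open Polynomial in
/-- The even coefficients of `P(Y) P(-Y)`, `P = ∏ (a_j + b_j Y)`, alternate in sign. -/
lemma coeff_nonneg (n k : ℕ) (a b : ℕ → ℝ) :
    0 ≤ (-1 : ℝ) ^ k * ((∏ j ∈ range n, (C (a j) + C (b j) * X)) *
      (∏ j ∈ range n, (C (a j) + C (b j) * X)).comp (-X)).coeff (2 * k) := by
  have h1 : (∏ j ∈ range n, (C (a j) + C (b j) * X)) *
      (∏ j ∈ range n, (C (a j) + C (b j) * X)).comp (-X) =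
      expand ℝ 2 (∏ j ∈ range n, (C (a j ^ 2) - C (b j ^ 2) * X)) := by
    rw [Polynomial.prod_comp, ← prod_mul_distrib, map_prod]
    apply prod_congr rfl
    intro j _
    simp
    ring
  have h2 : ∀ (m i : ℕ), 0 ≤ (∏ j ∈ range m, (C (a j ^ 2) + C (b j ^ 2) * X)).coeff i := by
    intro m
    induction m with
    | zero =>
      intro i
      rw [range_zero, prod_empty, coeff_one]
      split_ifs <;> norm_num
    | succ m ih =>
      intro i
      rw [prod_range_succ, mul_add, coeff_add]
      apply add_nonneg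
      · rw [coeff_mul_C]
        exact mul_nonneg (ih i) (sq_nonneg _)
      · rw [← mul_assoc]
        cases i with
        | zero => simp
        | succ i =>
          rw [coeff_mul_X, coeff_mul_C]
          exact mul_nonneg (ih i) (sq_nonneg _)
  have h3 : (∏ j ∈ range n, (C (a j ^ 2) + C (b j ^ 2) * X)) =
      (∏ j ∈ range n, (C (a j ^ 2) - C (b j ^ 2) * X)).comp (-X) := by
    rw [Polynomial.prod_comp]
    apply prod_congr rfl
    intro j _
    simp
  rw [h1, mul_comm 2 k, coeff_expand_mul (by norm_num)]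
  have h4 := h2 n k
  rw [h3, ← neg_one_mul, ← C_1, ← C_neg, comp_C_mul_X_coeff, mul_comm] at h4
  exact h4

open Polynomial in
lemma reverse_prod_lin (n : ℕ) (w : ℕ → ℝ) :
    (∏ j ∈ range n, (C (w j) + X)).reverse = ∏ j ∈ range n, (1 + C (w j) * X) := by
  induction n with
  | zero =>
    rw [range_zero, prod_empty, prod_empty, ← C_1, reverse_C]
  | succ n ih =>
    have h1 : (X : ℝ[X]).reverse = 1 := by
      have := reverse_mul_X (1 : ℝ[X])
      rw [one_mul] at this
      rw [this, ← C_1, reverse_C]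
    rw [prod_range_succ, prod_range_succ, reverse_mul_of_domain, ih, reverse_C_add, h1, natDegree_X, pow_one,
      add_comm (C (w n) * X)]

open Polynomial in
lemma key (n : ℕ) (x : ℝ) : ∃ w : ℕ → ℝ,
    (∀ r, (∏ j ∈ range n, (C (w j) + C 1 * X)).coeff r = (n.choose r : ℝ) * bern n (n - r) x) ∧
    (∀ r, (∏ j ∈ range n, (C 1 + C (w j) * X)).coeff r = (n.choose r : ℝ) * bern n r x) := by
  obtain ⟨z, hz⟩ := exists_zeros n
  let h : ℝ[X] := ∑ r ∈ range (n + 1), C ((n.choose r : ℝ) * bern n (n - r) x) * X ^ r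
  have hcoeff : ∀ r, h.coeff r = (n.choose r : ℝ) * bern n (n - r) x := by
    intro r
    simp only [h, finsetSum_coeff, coeff_C_mul, coeff_X_pow, mul_ite, mul_one, mul_zero]
    rw [Finset.sum_ite_eq (range (n + 1)) r]
    split_ifs with hr
    · rfl
    · rw [mem_range, not_lt] at hr
      rw [Nat.choose_eq_zero_of_lt (by omega)]
      simp
  have heval : ∀ y, h.eval y = bern n n (x + y) := by
    intro y
    rw [bern_add]
    simp only [h, eval_finsetSum, eval_mul, eval_C, eval_pow, eval_X]
    apply sum_congr rfl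
    intro r _
    ring
  have hh : h = ∏ j ∈ range n, (C (x - z j) + X) := by
    have hinj : ∀ i < n, ∀ j < n, z i = z j → i = j := by
      intro i hi j hj hij
      have h1 := (hz i hi).1
      have h2 := (hz j hj).1
      rw [hij] at h1
      by_contra hne
      rcases lt_or_gt_of_ne hne with hlt | hlt
      · have h3 : (i : ℝ) + 1 ≤ j := by exact_mod_cast hlt
        linarith [h1.2, h2.1]
      · have h3 : (j : ℝ) + 1 ≤ i := by exact_mod_cast hlt
        linarith [h1.1, h2.2]
    have hP : (∏ j ∈ range n, (C (x - z j) + X)).Monic := by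
      apply monic_prod_of_monic
      intro j _
      rw [add_comm]
      exact monic_X_add_C _
    have hPd : (∏ j ∈ range n, (C (x - z j) + X)).natDegree = n := by
      rw [natDegree_prod_of_monic _ _ (fun j _ => by rw [add_comm]; exact monic_X_add_C _)]
      have : ∀ j ∈ range n, (C (x - z j) + X).natDegree = 1 := by
        intro j _
        rw [add_comm]
        exact natDegree_X_add_C _
      rw [sum_congr rfl this]
      simp
    have hhn : h.coeff n = 1 := by
      rw [hcoeff, Nat.choose_self, Nat.sub_self, bern_zero]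
      simp
    have hhd : h.natDegree ≤ n := by
      rw [natDegree_le_iff_coeff_eq_zero]
      intro r hr
      rw [hcoeff, Nat.choose_eq_zero_of_lt hr]
      simp
    have hlt : (h - ∏ j ∈ range n, (C (x - z j) + X)).degree < n := by
      rw [degree_lt_iff_coeff_zero]
      intro r hr
      rw [coeff_sub]
      rcases eq_or_lt_of_le hr with hr | hr
      · subst hr
        have h5 := hP.coeff_natDegree
        rw [hPd] at h5
        rw [hhn, h5, sub_self]
      · rw [coeff_eq_zero_of_natDegree_lt (lt_of_le_of_lt hhd hr),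
          coeff_eq_zero_of_natDegree_lt (by rw [hPd]; exact hr), sub_self]
    have hcard : ((range n).image fun j => z j - x).card = n := by
      rw [card_image_of_injOn, card_range]
      intro i hi j hj hij
      rw [mem_coe, mem_range] at hi hj
      exact hinj i hi j hj (by simpa using hij)
    apply eq_of_degree_sub_lt_of_eval_finset_eq ((range n).image fun j => z j - x)
    · rw [hcard]
      exact hlt
    · intro y hy
      rw [mem_image] at hy
      obtain ⟨j, hj, rfl⟩ := hy
      rw [heval, add_sub_cancel, (hz j (mem_range.1 hj)).2, eval_prod]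
      symm
      apply prod_eq_zero hj
      simp
  have hnd : h.natDegree = n := by
    rw [hh, natDegree_prod_of_monic _ _ (fun j _ => by rw [add_comm]; exact monic_X_add_C _)]
    have : ∀ j ∈ range n, (C (x - z j) + X).natDegree = 1 := by
      intro j _
      rw [add_comm]
      exact natDegree_X_add_C _
    rw [sum_congr rfl this]
    simp
  refine ⟨fun j => x - z j, ?_, ?_⟩
  · intro r
    simp only [C_1, one_mul]
    rw [← hh, hcoeff]
  · intro r
    simp only [C_1]
    rw [← reverse_prod_lin, ← hh, coeff_reverse, hnd]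
    by_cases hr : r ≤ n
    · rw [revAt_le hr, hcoeff, Nat.choose_symm hr]
      congr 2
      omega
    · have h6 : (revAt n) r = r := by
        change (if r ≤ n then n - r else r) = r
        rw [if_neg hr]
      rw [h6, hcoeff, Nat.choose_eq_zero_of_lt (by omega)]
      simp

open Polynomial in
lemma coeff_mul_comp (P : ℝ[X]) (k : ℕ) :
    (P * P.comp (-X)).coeff (2 * k) =
      ∑ j ∈ range (2 * k + 1), (-1) ^ j * P.coeff j * P.coeff (2 * k - j) := by
  rw [coeff_mul, Finset.Nat.sum_antidiagonal_eq_sum_range_succ_mk]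
  apply sum_congr rfl
  intro j hj
  rw [mem_range] at hj
  simp only
  rw [← neg_one_mul, ← C_1, ← C_neg, comp_C_mul_X_coeff]
  have : (-1 : ℝ) ^ (2 * k - j) = (-1) ^ j := by
    rw [neg_one_pow_eq_pow_mod_two, neg_one_pow_eq_pow_mod_two (n := j)]
    congr 1
    omega
  rw [this]
  ring

/-- **The convolution sums of the generalized Bernoulli polynomials are nonnegative.** For every
integer `n ≥ 1` and every real `x`, `α_{n,k}(x) ≥ 0` for `1 ≤ 2k ≤ n` and `β_{n,k}(x) ≥ 0` for
`0 ≤ 2k ≤ n - 1`. -/
theorem result (n : ℕ) (_hn : 1 ≤ n) (x : ℝ) :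
    (∀ k : ℕ, 1 ≤ 2 * k → 2 * k ≤ n → 0 ≤ alpha n k x) ∧
      (∀ k : ℕ, 2 * k ≤ n - 1 → 0 ≤ beta n k x) := by
  obtain ⟨w, h1, h2⟩ := key n x
  constructor
  · intro k _ hk
    have h := coeff_nonneg n k w (fun _ => 1)
    rw [coeff_mul_comp] at h
    refine le_of_le_of_eq h ?_
    unfold alpha
    congr 1
    apply sum_congr rfl
    intro j hj
    rw [mem_range] at hj
    rw [h1, h1, show n - (2 * k - j) = n - 2 * k + j by omega]
    ring
  · intro k _
    have h := coeff_nonneg n k (fun _ => 1) w
    rw [coeff_mul_comp] at h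
    refine le_of_le_of_eq h ?_
    unfold beta
    congr 1
    apply sum_congr rfl
    intro j hj
    rw [h2, h2]
    ring

end Pool.Agent.Results.MP_6eafb7_an.ConvolutionPositivity
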